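import Mathlib
import Pool.Agent.H.MP_88f7c7_lc.Gram

set_option autoImplicit false

open List Pool.Agent.H.MP_88f7c7_lc Pool.Agent.Lib.helper21.While Pool.Agent.Lib.helper21.CFG

namespace Pool.Agent.Results.MP_88f7c7_lc.Undecidable

/-- The word of length n read in x from position i. -/
def win {S : Type} (x : ℤ → S) (i : ℤ) (n : ℕ) : List S := List.ofFn (fun k : Fin n => x (i + k))

/-- The subshift generated by a substitution. -/
def Shift {S : Type} (τ : S → List S) : Set (ℤ → S) :=
  {x | ∀ (i : ℤ) (n : ℕ), ∃ (m : ℕ) (a : S), win x i n <:+: (fun w => List.flatMap τ w)^[m] [a]}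

/-- The language of a set of bi-infinite sequences. -/
def Lang {S : Type} (X : Set (ℤ → S)) : Set (List S) := {w | ∃ x ∈ X, ∃ i, w = win x i w.length}

/-- The context-free grammar with a given start symbol and list of rules. -/
def toCFG {S : Type} [DecidableEq S] (c : ℕ × List (ℕ × List (S ⊕ ℕ))) : ContextFreeGrammar S :=
  ⟨ℕ, c.1, (c.2.map fun r =>
    (⟨r.1, r.2.map (Sum.elim Symbol.terminal Symbol.nonterminal)⟩ : ContextFreeRule S ℕ)).toFinset⟩

def tau : Fin 4 → List (Fin 4) := ![[0, 0], [1], [3, 2, 0, 1], [3]]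

def uu : ℕ → List (Fin 4)
  | 0 => []
  | n + 1 => uu n ++ blk (2 ^ n) 0

theorem fm_rep (k : ℕ) : flatMap tau (replicate k 0) = replicate (2 * k) 0 := by
  induction k with
  | zero => rfl
  | succ k ih => rw [replicate_succ, flatMap_cons, ih]; rfl

theorem fm_rep3 (k : ℕ) : flatMap tau (replicate k 3) = replicate k 3 := by
  induction k with
  | zero => rfl
  | succ k ih => rw [replicate_succ, flatMap_cons, ih]; rfl

theorem fm_uu (n : ℕ) : 0 :: 1 :: flatMap tau (uu n) = uu (n + 1) := by
  induction n with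
  | zero => rfl
  | succ n ih =>
    rw [uu, flatMap_append, ← cons_append, ← cons_append, ih, uu.eq_2 (n + 1), blk, blk,
      flatMap_append, fm_rep, ← pow_succ']
    rfl

theorem it2 (m : ℕ) : (fun w => flatMap tau w)^[m] [2] = replicate m 3 ++ 2 :: uu m := by
  induction m with
  | zero => rfl
  | succ m ih =>
    rw [Function.iterate_succ_apply', ih, flatMap_append, fm_rep3, flatMap_cons, ← fm_uu,
      replicate_succ', append_assoc]
    rfl

theorem it0 (m : ℕ) : (fun w => flatMap tau w)^[m] [0] = replicate (2 ^ m) 0 := by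
  induction m with
  | zero => rfl
  | succ m ih => rw [Function.iterate_succ_apply', ih, fm_rep, pow_succ']

theorem run_uu (n : ℕ) : run (1, 0) (uu n) = some (2 ^ n, 0) := by
  induction n with
  | zero => rfl
  | succ n ih => exact run_app.2 ⟨_, ih, (run_blk _ _ _ _ _).2 ⟨by simp, by simp, by rw [pow_succ']⟩⟩

theorem run_it (m : ℕ) (a : Fin 4) : ∃ q q', run q ((fun w => flatMap tau w)^[m] [a]) = some q' := by
  fin_cases a
  · exact ⟨(2 ^ m, 0), _, (it0 m).symm ▸ (run_rep _ _ _ _).2 ⟨Or.inr (by simp), rfl⟩⟩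
  · exact ⟨(0, 0), _, by rw [Function.iterate_fixed (by rfl)]; rfl⟩
  · refine ⟨(0, 0), (2 ^ m, 0), (it2 m).symm ▸ run_app.2 ⟨(0, 0), ?_, run_uu m⟩⟩
    induction m with
    | zero => rfl
    | succ m ih => exact ih
  · exact ⟨(0, 0), _, by rw [Function.iterate_fixed (by rfl)]; rfl⟩

theorem run_of_lang {w : List (Fin 4)} (h : w ∈ Lang (Shift tau)) : ∃ q q', run q w = some q' := by
  obtain ⟨x, hx, i, e⟩ := h
  obtain ⟨m, a, s, t, h⟩ := hx i w.length
  obtain ⟨q, q', h'⟩ := run_it m a
  rw [← h, ← e, run_app] at h'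
  obtain ⟨q1, h1, -⟩ := h'
  obtain ⟨q2, -, h2⟩ := run_app.1 h1
  exact ⟨_, _, h2⟩

theorem run_prefix {u v : List (Fin 4)} (hu : ∀ x ∈ u, x = 0 ∨ x = 1) (hv : ∀ x ∈ v, x = 0 ∨ x = 1)
    {q q1 q2 : ℕ × ℕ} (h1 : run q u = some q1) (h2 : run q v = some q2) (hl : u.length ≤ v.length) :
    u <+: v := by
  induction u generalizing q v with
  | nil => exact nil_prefix
  | cons x u ih =>
    cases v with
    | nil => simp at hl
    | cons y v =>
      simp only [run, Option.bind_eq_some_iff] at h1 h2
      obtain ⟨a, h1, h3⟩ := h1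
      obtain ⟨b, h2, h4⟩ := h2
      obtain rfl : x = y := by
        rcases hu x mem_cons_self with rfl | rfl <;> rcases hv y mem_cons_self with rfl | rfl <;>
          simp [step] at h1 h2 ⊢ <;> omega
      obtain rfl : a = b := Option.some_injective _ (h1.symm.trans h2)
      exact (prefix_cons_inj x).2 (ih (fun z hz => hu z (mem_cons_of_mem _ hz))
        (fun z hz => hv z (mem_cons_of_mem _ hz)) h3 h4 (by simpa using hl))

theorem uu_mem (n : ℕ) : ∀ x ∈ uu n, x = 0 ∨ x = 1 := by
  induction n with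
  | zero => simp [uu]
  | succ n ih =>
    intro x hx
    simp only [uu, blk, mem_append, mem_cons, mem_replicate] at hx
    have := ih x
    tauto

theorem uu_len (n : ℕ) : n ≤ (uu n).length := by
  induction n with
  | zero => simp
  | succ n ih => simp only [uu, blk, length_append, length_cons]; omega

theorem uu_pre {m n : ℕ} (h : m ≤ n) : uu m <+: uu n := by
  induction n, h using Nat.le_induction with
  | base => exact prefix_rfl
  | succ n _ ih => exact ih.trans (prefix_append _ _)

def xx (i : ℤ) : Fin 4 := if i < 0 then 3 else if i = 0 then 2 else (uu i.toNat).getD (i.toNat - 1) 0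

def Occ (o : ℤ) (l : List (Fin 4)) : Prop := ∀ k (h : k < l.length), l[k] = xx (o + k)

theorem occ_uu (m : ℕ) : Occ 1 (uu m) := by
  intro k hk
  have e : ((1 : ℤ) + k).toNat = k + 1 := by omega
  have h1 : k < (uu (k + 1)).length := uu_len (k + 1)
  rw [xx, if_neg (by omega), if_neg (by omega), e, Nat.add_sub_cancel, getD_eq_getElem _ _ h1]
  rcases le_total m (k + 1) with h | h
  · exact (uu_pre h).getElem hk
  · exact ((uu_pre h).getElem h1).symm

theorem occ_it (m : ℕ) : Occ (-m) (replicate m 3 ++ 2 :: uu m) := by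
  intro k hk
  rw [getElem_append]
  split_ifs with h
  · rw [length_replicate] at h
    rw [getElem_replicate, xx, if_pos (by omega)]
  · simp only [length_replicate] at h ⊢
    rw [getElem_cons]
    split_ifs with h'
    · rw [xx, if_neg (by omega), if_pos (by omega)]
    · rw [occ_uu m]
      congr 1
      omega

theorem Occ.mid {o : ℤ} {s w t : List (Fin 4)} (h : Occ o (s ++ w ++ t)) :
    w = win xx (o + s.length) w.length := by
  refine ext_getElem (by simp [win]) (fun k h1 h2 => ?_)
  have := h (s.length + k) (by simp; omega)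
  rw [getElem_append_left (by simp; omega), getElem_append_right (by omega)] at this
  simp only [Nat.add_sub_cancel_left] at this
  simp [win, this, add_assoc]

theorem xx_mem : xx ∈ Shift tau := by
  intro i n
  refine ⟨i.natAbs + n, 2, ?_⟩
  rw [it2]
  have h := occ_it (i.natAbs + n)
  have hl : 2 * (i.natAbs + n) ≤ (replicate (i.natAbs + n) 3 ++ 2 :: uu (i.natAbs + n)).length := by
    have := uu_len (i.natAbs + n)
    simp; omega
  generalize replicate (i.natAbs + n) 3 ++ 2 :: uu (i.natAbs + n) = l at h hl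
  obtain ⟨j, hj⟩ : ∃ j : ℕ, (j : ℤ) = i + (i.natAbs + n : ℕ) := ⟨(i + (i.natAbs + n : ℕ)).toNat, by omega⟩
  have e : l = take j l ++ take n (drop j l) ++ drop n (drop j l) := by simp
  rw [e] at h
  have h2 := h.mid
  rw [length_take, length_take, length_drop, min_eq_left (by omega), min_eq_left (by omega),
    show -((i.natAbs + n : ℕ) : ℤ) + j = i by omega] at h2
  rw [← h2]
  exact (take_prefix _ _).isInfix.trans (drop_suffix _ _).isInfix

theorem lang_of_run {j : ℕ} {u : List (Fin 4)} {q : ℕ × ℕ} (hu : ∀ x ∈ u, x = 0 ∨ x = 1)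
    (h : run (2 ^ (j + 1), 0) u = some q) : 1 :: u ∈ Lang (Shift tau) := by
  obtain ⟨t, ht⟩ := run_prefix (u := uu (j + 1) ++ u) (v := uu (uu (j + 1) ++ u).length)
    (fun x hx => (mem_append.1 hx).elim (uu_mem _ x) (hu x)) (uu_mem _)
    (run_app.2 ⟨_, run_uu _, h⟩) (run_uu _) (uu_len _)
  have h2 := occ_uu (uu (j + 1) ++ u).length
  rw [← ht, show uu (j + 1) ++ u = (uu j ++ replicate (2 ^ j) 0) ++ (1 :: u) by simp [uu, blk]] at h2
  exact ⟨xx, xx_mem, _, h2.mid⟩

theorem result : ∃ τ : Fin 4 → List (Fin 4),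
    ¬ ComputablePred (fun c : ℕ × List (ℕ × List (Fin 4 ⊕ ℕ)) =>
      ∃ w ∈ (toCFG c).language, w ∈ Lang (Shift τ)) := by
  obtain ⟨P, hP⟩ := exists_undec
  refine ⟨tau, fun h => hP ?_⟩
  let back : Sy → Fin 4 ⊕ ℕ := fun s => match s with
    | .terminal t => .inl t
    | .nonterminal n => .inr n
  have hb : ∀ s, Sum.elim Symbol.terminal Symbol.nonterminal (back s) = s := by
    rintro (t | n) <;> rfl
  let L : List (ℕ × List (Fin 4 ⊕ ℕ)) := ((rules_fin (.inc 0)).union (rules_fin P)).toFinset.toList.map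
    (fun r => (r.input, r.output.map back))
  let f : ℕ → ℕ × List (ℕ × List (Fin 4 ⊕ ℕ)) := fun n => (en .start, (en .start,
    .inl 1 :: .inl 0 :: ((range n).map (fun _ => .inr (en (.pr (.inc 0)))) ++
      [.inr (en (.pr P))])) :: L)
  have hf : Computable f := (Primrec.pair (.const _) (Primrec.list_cons.comp (Primrec.pair (.const _)
    (Primrec.list_cons.comp (.const _) (Primrec.list_cons.comp (.const _) (Primrec.list_append.comp
      (Primrec.list_map Primrec.list_range (Primrec.const _).to₂) (.const _))))) (.const _))).to_comp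
  have hr : ∀ n, ((toCFG (f n)).rules : Set (ContextFreeRule (Fin 4) (toCFG (f n)).NT)) =
      insert (startR P n) (rules (.inc 0) ∪ rules P) := by
    intro n
    simp only [toCFG, f, L, map_cons, toFinset_cons, map_map]
    refine (Finset.coe_insert (α := Ru) _ _).trans ?_
    congr 1
    · simp [startR, nt, Function.comp_def]
    · ext r
      simp [Function.comp_def, hb]
  refine ComputablePred.of_eq (ComputablePred.computable_of_manyOneReducible
    (ManyOneReducible.mk _ hf) h) (fun n => ⟨?_, ?_⟩)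
  · rintro ⟨w, h1, h2⟩
    rw [mem_language_iff_gen, hr] at h1
    exact gram_sound P n w h1 (run_of_lang h2)
  · rintro ⟨t, ht⟩
    obtain ⟨j, u, q, h1, h2, h3⟩ := gram_complete P n t ht
    exact ⟨1 :: u, by rw [mem_language_iff_gen, hr]; exact h1, lang_of_run h2 h3⟩

end Pool.Agent.Results.MP_88f7c7_lc.Undecidable
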